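import Pool.Agent.helper32.ATT.Attach

/-! Reversed (after deletion of the letters with the same successor) is invariant under triple
swaps. -/

namespace Pool.Agent.helper32.ATT

set_option linter.unusedSectionVars false
set_option linter.unusedSimpArgs false

open Pool.Agent.helper36.WE Equiv Equiv.Perm List

variable {X : Type} [DecidableEq X]

lemma CM.symm' {s s' : List X × List X} (h : CM s s') : CM s' s := by
  obtain ⟨x, y, z, P, Q, R, P', Q', R', h1, h2, h3, h4⟩ := h
  exact ⟨y, x, z, Q, P, R, Q', P', R', h3, h4, h1, h2⟩

lemma chain (q : X → Bool) (y : X) (Q Q' : List X) : ∀ (P P' : List X) (x : X) (A B : List X),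
    (A ++ x :: (P ++ y :: Q)).Nodup → (B ++ x :: (P' ++ y :: Q')).Nodup →
    (∀ s, q s = false → formPerm (A ++ x :: (P ++ y :: Q)) s =
      formPerm (B ++ x :: (P' ++ y :: Q')) s) →
    ((x :: P).filter q = [] ∧ (x :: P').filter q = []) ∨
      ∃ t u v, (x :: P).filter q = t :: u ∧ (x :: P').filter q = t :: v := by
  intro P
  induction P with
  | nil =>
      intro P' x A B hA hB hs
      cases hx : q x with
      | true =>
          right
          exact ⟨x, _, _, List.filter_cons_of_pos hx, List.filter_cons_of_pos hx⟩
      | false =>
          left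
          have h1 := hs x hx
          rw [List.nil_append, formPerm_adjacent (by simpa using hA)] at h1
          cases P' with
          | nil => simp [hx]
          | cons p' P' =>
              exfalso
              rw [List.cons_append, formPerm_adjacent (by simpa using hB)] at h1
              subst h1
              have h2 := (List.nodup_append.mp hB).2.1
              simp at h2
  | cons p P ih =>
      intro P' x A B hA hB hs
      cases hx : q x with
      | true =>
          right
          exact ⟨x, _, _, List.filter_cons_of_pos hx, List.filter_cons_of_pos hx⟩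
      | false =>
          have h1 := hs x hx
          rw [List.cons_append, formPerm_adjacent (by simpa using hA)] at h1
          cases P' with
          | nil =>
              exfalso
              rw [List.nil_append, formPerm_adjacent (by simpa using hB)] at h1
              subst h1
              have h2 := (List.nodup_append.mp hA).2.1
              simp at h2
          | cons p' P' =>
              rw [List.cons_append, formPerm_adjacent (by simpa using hB)] at h1
              subst h1
              have e1 : A ++ x :: ((p :: P) ++ y :: Q) = (A ++ [x]) ++ p :: (P ++ y :: Q) := by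
                simp
              have e2 : B ++ x :: ((p :: P') ++ y :: Q') = (B ++ [x]) ++ p :: (P' ++ y :: Q') := by
                simp
              rw [e1] at hA hs
              rw [e2] at hB hs
              have h3 := ih P' p (A ++ [x]) (B ++ [x]) hA hB hs
              have g1 : (x :: p :: P).filter q = (p :: P).filter q :=
                List.filter_cons_of_neg (by simp [hx])
              have g2 : (x :: p :: P').filter q = (p :: P').filter q :=
                List.filter_cons_of_neg (by simp [hx])
              rw [g1, g2]
              exact h3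

/-- **RR is invariant under triple swaps.** -/
theorem RRf.CM {T : Finset X} {ρ : Perm X} {a b a' b' : List X} (h : St T ρ a b)
    (hm : CM (a, b) (a', b')) (hR : RRf ρ a b) : RRf ρ a' b' := by
  have h' : St T ρ a' b' := h.CM hm
  obtain ⟨x, y, z, P, Q, R, P', Q', R', e1, e2, e3, e4⟩ := hm
  simp only at e1 e2 e3 e4
  set q : X → Bool := fun s => decide (ρ s ≠ s) with hq
  have hfix : ∀ s, q s = false → formPerm a s = formPerm b s := by
    intro s hs
    have h1 : ρ s = s := by simpa [hq] using hs
    rw [← h.rho, Perm.mul_apply, Perm.inv_eq_iff_eq] at h1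
    exact h1
  have key : ∀ (x y : X) (P P' Q Q' : List X), a ~r (x :: (P ++ y :: Q)) →
      b ~r (x :: (P' ++ y :: Q')) → ((x :: P).filter q = [] ∧ (x :: P').filter q = []) ∨
      ∃ t u v, (x :: P).filter q = t :: u ∧ (x :: P').filter q = t :: v := by
    intro x y P P' Q Q' ha hb
    refine chain q y Q Q' P P' x [] [] (ha.nodup_iff.mp h.nodup) (hb.nodup_iff.mp h.nodupB) ?_
    intro s hs
    have h1 := hfix s hs
    rw [formPerm_eq_of_isRotated h.nodup ha, formPerm_eq_of_isRotated h.nodupB hb] at h1
    exact h1
  have kx := key x y P P' (Q ++ z :: R) (Q' ++ z :: R') (by simpa using e1) (by simpa using e2)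
  have ky := key y z Q Q' (R ++ x :: P) (R' ++ x :: P')
    (e1.trans (rot_of_eq (u := x :: P) (v := (y :: Q) ++ (z :: R)) (by simp) (by simp)))
    (e2.trans (rot_of_eq (u := x :: P') (v := (y :: Q') ++ (z :: R')) (by simp) (by simp)))
  have kz := key z x R R' (P ++ y :: Q) (P' ++ y :: Q')
    (e1.trans (rot_of_eq (u := (x :: P) ++ (y :: Q)) (v := z :: R) (by simp) (by simp)))
    (e2.trans (rot_of_eq (u := (x :: P') ++ (y :: Q')) (v := z :: R') (by simp) (by simp)))
  have f1 := rot_filter e1 q
  have f2 := rot_filter e2 q
  have f3 := rot_filter e3 q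
  have f4 := rot_filter e4 q
  rw [List.filter_append, List.filter_append] at f1 f2 f3 f4
  have hR1 : Rev (a.filter q) (b.filter q) := hR
  show Rev (a'.filter q) (b'.filter q)
  rcases kx with ⟨x1, x2⟩ | ⟨tx, ux, vx, x1, x2⟩
  · rw [x1, List.nil_append] at f1
    rw [x2, List.nil_append] at f2
    rw [x1, List.append_nil] at f3
    rw [x2, List.append_nil] at f4
    exact Rev.rot hR1 (f1.trans f3.symm) (f2.trans f4.symm)
  rcases ky with ⟨y1, y2⟩ | ⟨ty, uy, vy, y1, y2⟩
  · rw [y1, List.append_nil] at f1
    rw [y2, List.append_nil] at f2
    rw [y1, List.nil_append] at f3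
    rw [y2, List.nil_append] at f4
    exact Rev.rot hR1 (f1.trans f3.symm) (f2.trans f4.symm)
  rcases kz with ⟨z1, z2⟩ | ⟨tz, uz, vz, z1, z2⟩
  · rw [z1, List.append_nil] at f1
    rw [z2, List.append_nil] at f2
    rw [z1, List.append_nil] at f3
    rw [z2, List.append_nil] at f4
    exact Rev.rot hR1 ((f1.trans (rot_append _ _)).trans f3.symm)
      ((f2.trans (rot_append _ _)).trans f4.symm)
  exfalso
  rw [x1, y1, z1] at f1 f3
  rw [x2, y2, z2] at f2 f4
  have hm' : Pool.Agent.helper36.WE.CM (a.filter q, b.filter q) (a'.filter q, b'.filter q) :=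
    ⟨tx, ty, tz, ux, uy, uz, vx, vy, vz, f1, f2, f3, f4⟩
  exact not_rev_of_CM (CM.symm' hm') (h.nodup.filter _) (h.nodupB.filter _) hR1

theorem RRf.CM_iff {T : Finset X} {ρ : Perm X} {a b a' b' : List X} (h : St T ρ a b)
    (hm : Pool.Agent.helper36.WE.CM (a, b) (a', b')) : RRf ρ a b ↔ RRf ρ a' b' :=
  ⟨RRf.CM h hm, RRf.CM (h.CM hm) (CM.symm' hm)⟩

theorem RRf.walk {T : Finset X} {ρ : Perm X} {n : ℕ} : ∀ {a b a' b' : List X}, St T ρ a b →
    Walk Pool.Agent.helper36.WE.CM n (a, b) (a', b') → (RRf ρ a b ↔ RRf ρ a' b') := by
  intro a b a' b' h hw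
  obtain ⟨f, f0, fn, hf⟩ := hw
  have key : ∀ i ≤ n, St T ρ (f i).1 (f i).2 ∧ (RRf ρ a b ↔ RRf ρ (f i).1 (f i).2) := by
    intro i
    induction i with
    | zero => intro _; rw [f0]; exact ⟨h, Iff.rfl⟩
    | succ i ih =>
        intro hi
        obtain ⟨h1, h2⟩ := ih (by omega)
        have hm : Pool.Agent.helper36.WE.CM ((f i).1, (f i).2) ((f (i + 1)).1, (f (i + 1)).2) :=
          hf i (by omega)
        exact ⟨h1.CM hm, h2.trans (RRf.CM_iff h1 hm)⟩
  have := key n le_rfl
  rw [fn] at this
  exact this.2

/-- Reversed after deletion of letters that are directly before the same letter in both words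
(inductive form). -/
inductive RR : List X → List X → Prop
  | rev {a b : List X} (h : b ~r a.reverse) : RR a b
  | fix {a b a' b' : List X} (x s : X) (ha : a' ~r x :: s :: a) (hb : b' ~r x :: s :: b)
      (h : RR (s :: a) (s :: b)) : RR a' b'

theorem RR.toRRf {a b : List X} (h : RR a b) : ∀ {T : Finset X} {ρ : Perm X}, St T ρ a b →
    RRf ρ a b := by
  induction h with
  | @rev a b h =>
      intro T ρ hs
      unfold RRf Rev
      rw [← List.filter_reverse]
      exact rot_filter h _
  | @fix a b a' b' x s ha hb h ih =>
      intro T ρ hs
      have h1 := ih (St.del hs ha hb)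
      have hx : ρ x = x := by
        rw [← hs.rho, Perm.mul_apply, Perm.inv_eq_iff_eq, formPerm_eq_of_isRotated hs.nodup ha,
          formPerm_eq_of_isRotated hs.nodupB hb,
          formPerm_apply_head x s a (ha.nodup_iff.mp hs.nodup),
          formPerm_apply_head x s b (hb.nodup_iff.mp hs.nodupB)]
      have f1 := rot_filter ha (fun s => decide (ρ s ≠ s))
      have f2 := rot_filter hb (fun s => decide (ρ s ≠ s))
      rw [List.filter_cons_of_neg (by simp [hx])] at f1 f2
      exact Rev.rot h1 f1.symm f2.symm

theorem RRf.toRR : ∀ (m : ℕ) {T : Finset X} {ρ : Perm X} {a b : List X}, St T ρ a b →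
    T.card = m → RRf ρ a b → RR a b := by
  intro m
  induction m with
  | zero =>
      intro T ρ a b hs hm h
      rw [Finset.card_eq_zero] at hm
      subst hm
      have h1 : a = [] := List.toFinset_eq_empty_iff a |>.mp hs.supp
      subst h1
      have h2 := List.nil_perm.mp hs.perm
      subst h2
      exact .rev (by simp)
  | succ m ih =>
      intro T ρ a b hs hm h
      by_cases hF : ∃ f ∈ T, ρ f = f
      · obtain ⟨f, hf, hff⟩ := hF
        have hfa : f ∈ a := by rw [← List.mem_toFinset, hs.supp]; exact hf
        have hfb : f ∈ b := hs.perm.subset hfa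
        obtain ⟨A, hA⟩ := exists_rot_cons hfa
        obtain ⟨B, hB⟩ := exists_rot_cons hfb
        have h1 := hs.rot hA hB
        have h2 := hff
        rw [← h1.rho, Perm.mul_apply, Perm.inv_eq_iff_eq] at h2
        cases A with
        | nil =>
            have hl := h1.perm.length_eq
            cases B with
            | nil => exact .rev ((hB.trans (by simp)).trans hA.reverse.symm)
            | cons s B => simp at hl
        | cons s A =>
            cases B with
            | nil =>
                have hl := h1.perm.length_eq
                simp at hl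
            | cons s' B =>
                rw [formPerm_apply_head f s A h1.nodup, formPerm_apply_head f s' B h1.nodupB] at h2
                subst h2
                refine .fix f s hA hB (ih (St.del hs hA hB) ?_ ?_)
                · rw [Finset.card_erase_of_mem hf, hm]; rfl
                · have f1 := rot_filter hA (fun s => decide (ρ s ≠ s))
                  have f2 := rot_filter hB (fun s => decide (ρ s ≠ s))
                  rw [List.filter_cons_of_neg (by simp [hff])] at f1 f2
                  exact Rev.rot h f1 f2
      · push Not at hF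
        have hfil : ∀ l : List X, (∀ s ∈ l, s ∈ T) →
            l.filter (fun s => decide (ρ s ≠ s)) = l := by
          intro l hl
          rw [List.filter_eq_self]
          intro s hs
          simp only [decide_eq_true_eq]
          exact hF s (hl s hs)
        unfold RRf Rev at h
        rw [hfil a (fun s hs' => by rw [← hs.supp, List.mem_toFinset]; exact hs'),
          hfil b (fun s hs' => by
            rw [← hs.supp, List.mem_toFinset]; exact hs.perm.symm.subset hs')] at h
        exact .rev h

theorem RR_iff {T : Finset X} {ρ : Perm X} {a b : List X} (hs : St T ρ a b) :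
    RR a b ↔ RRf ρ a b := ⟨fun h => h.toRRf hs, fun h => RRf.toRR _ hs rfl h⟩

end Pool.Agent.helper32.ATT
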