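import Pool.Agent.helper32.ATT.Walk

/-! ATTACH for the S-states (MP_c8d30a, Theorem (A), section 6). -/

namespace Pool.Agent.helper32.ATT

set_option linter.unusedSectionVars false
set_option linter.unusedSimpArgs false
set_option linter.unusedVariables false

open Pool.Agent.helper36.WE Equiv Equiv.Perm List NTS

variable {Ω : Type} [DecidableEq Ω] {p : Ω → Ω}

/-- `Gr W g q`: going from `g` to `q` in the cyclic word `W` one meets, after `g`, only tokens with
the partner in the same word (for `g` mixed: `g` is the ground of `q`). -/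
inductive Gr (p : Ω → Ω) (W : List Ω) (g : Ω) : Ω → Prop
  | base : Gr p W g g
  | step (q : Ω) (h : Gr p W g q) (hc : p (formPerm W q) ∈ W) : Gr p W g (formPerm W q)

lemma Gr.mem {W : List Ω} {g q : Ω} (h : Gr p W g q) (hg : g ∈ W) : q ∈ W := by
  induction h with
  | base => exact hg
  | step q h hc ih => exact formPerm_apply_mem_of_mem ih

/-- transport of `Gr`. -/
lemma Gr.trans' {W W' : List Ω} {g q : Ω} (h : Gr p W g q) (hg : g ∈ W) (hp : W'.Perm W)
    (hs : ∀ s ∈ W, p (formPerm W s) ∈ W → formPerm W' s = formPerm W s) : Gr p W' g q := by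
  induction h with
  | base => exact .base
  | step q h hc ih =>
      have h1 := hs q (h.mem hg) hc
      rw [← h1]
      refine .step q ih ?_
      rw [h1]
      exact hp.mem_iff.mpr hc

lemma Gr.list {W : List Ω} {g q : Ω} (hn : W.Nodup) (h : Gr p W g q) (hg : g ∈ W)
    (hgm : p g ∉ W) :
    ∃ C C' R, W ~r g :: (C ++ R) ∧ (∀ t ∈ C, p t ∈ W) ∧ g :: C = C' ++ [q] := by
  induction h with
  | base =>
      obtain ⟨L, hL⟩ := exists_rot_cons hg
      exact ⟨[], [], L, by simpa using hL, by simp, by simp⟩
  | step q h hc ih =>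
      obtain ⟨C, C', R, h1, h2, h3⟩ := ih
      cases R with
      | nil =>
          exfalso
          rw [List.append_nil, h3] at h1
          have h4 : formPerm W q = g := by
            rw [formPerm_eq_of_isRotated hn h1]
            have h5 : (C' ++ [q]) ~r (g :: C) := by rw [h3]
            rw [formPerm_eq_of_isRotated (h1.nodup_iff.mp hn) h5]
            exact formPerm_getLast (by rw [h3]; simp)
          rw [h4] at hc
          exact hgm hc
      | cons s R =>
          have h4 : formPerm W q = s := by
            rw [formPerm_eq_of_isRotated hn h1]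
            have e : g :: (C ++ s :: R) = C' ++ q :: s :: R := by
              have : g :: (C ++ s :: R) = (g :: C) ++ s :: R := rfl
              rw [this, h3]
              simp
            rw [e]
            exact formPerm_adjacent (by rw [← e]; exact h1.nodup_iff.mp hn)
          rw [h4] at hc ⊢
          refine ⟨C ++ [s], g :: C, R, by simpa using h1, ?_, by simp⟩
          intro t ht
          rcases List.mem_append.mp ht with ht | ht
          · exact h2 t ht
          · rw [List.mem_singleton.mp ht]; exact hc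

/-- the successor in the core. -/
lemma core_succ {W : List Ω} {g q : Ω} (hn : W.Nodup) (h : Gr p W g q) (hg : g ∈ W)
    (hgm : p g ∉ W) (hqm : p (formPerm W q) ∉ W) {m : Ω → Bool}
    (hm : ∀ t ∈ W, m t = true ↔ p t ∉ W) : formPerm (W.filter m) g = formPerm W q := by
  obtain ⟨C, C', R, h1, h2, h3⟩ := h.list hn hg hgm
  have hgm' : m g = true := (hm g hg).mpr hgm
  have hC : C.filter m = [] := by
    rw [List.filter_eq_nil_iff]
    intro t ht
    have htW : t ∈ W := h1.mem_iff.mpr (by simp [ht])
    intro h4
    exact (hm t htW).mp h4 (h2 t ht)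
  have h4 := rot_filter h1 m
  rw [List.filter_cons_of_pos hgm', List.filter_append, hC, List.nil_append] at h4
  have hnf : (W.filter m).Nodup := hn.filter _
  rw [formPerm_eq_of_isRotated hnf h4]
  cases R with
  | nil =>
      rw [List.append_nil, h3] at h1
      have h5 : formPerm W q = g := by
        rw [formPerm_eq_of_isRotated hn h1]
        have h6 : (C' ++ [q]) ~r (g :: C) := by rw [h3]
        rw [formPerm_eq_of_isRotated (h1.nodup_iff.mp hn) h6]
        exact formPerm_getLast (by rw [h3]; simp)
      rw [h5]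
      simp
  | cons s R =>
      have h5 : formPerm W q = s := by
        rw [formPerm_eq_of_isRotated hn h1]
        have e : g :: (C ++ s :: R) = C' ++ q :: s :: R := by
          have : g :: (C ++ s :: R) = (g :: C) ++ s :: R := rfl
          rw [this, h3]
          simp
        rw [e]
        exact formPerm_adjacent (by rw [← e]; exact h1.nodup_iff.mp hn)
      rw [h5] at hqm ⊢
      have hsW : s ∈ W := h1.mem_iff.mpr (by simp)
      have hsm : m s = true := (hm s hsW).mpr hqm
      rw [List.filter_cons_of_pos hsm] at h4 ⊢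
      exact formPerm_apply_head g s _ (h4.nodup_iff.mp hnf)

/-- every token has a ground if there is a mixed token. -/
lemma exists_ground {W : List Ω} (hn : W.Nodup) {q : Ω} (hq : q ∈ W) (hm : ∃ t ∈ W, p t ∉ W) :
    ∃ g ∈ W, p g ∉ W ∧ Gr p W g q := by
  obtain ⟨t, ht, htm⟩ := hm
  obtain ⟨L, hL⟩ := exists_rot_cons hq
  -- induction on the distance: use the powers of the cycle
  have key : ∀ (n : ℕ) (L1 L2 : List Ω) (s : Ω), W ~r (L1 ++ s :: L2) → L1.length ≤ n →
      t ∈ L1 ++ [s] → ∃ g ∈ W, p g ∉ W ∧ Gr p W g s := by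
    intro n
    induction n with
    | zero =>
        intro L1 L2 s h1 hl ht1
        have : L1 = [] := List.length_eq_zero_iff.mp (by omega)
        subst this
        have : t = s := by simpa using ht1
        subst this
        exact ⟨t, ht, htm, .base⟩
    | succ n ih =>
        intro L1 L2 s h1 hl ht1
        have hsW : s ∈ W := h1.mem_iff.mpr (by simp)
        by_cases hs : p s ∈ W
        · rcases List.eq_nil_or_concat L1 with h2 | ⟨L3, r, h2⟩
          · subst h2
            have : t = s := by simpa using ht1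
            subst this
            exact absurd hs htm
          · rw [List.concat_eq_append] at h2
            subst h2
            have ht2 : t ∈ L3 ++ [r] := by
              rcases List.mem_append.mp ht1 with h3 | h3
              · exact h3
              · rw [List.mem_singleton.mp h3] at htm
                exact absurd hs htm
            obtain ⟨g, hg, hgm, hG⟩ := ih L3 (s :: L2) r (by simpa using h1)
              (by simp at hl; omega) ht2
            refine ⟨g, hg, hgm, ?_⟩
            have h4 : formPerm W r = s := by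
              rw [formPerm_eq_of_isRotated hn h1]
              have e : (L3 ++ [r]) ++ s :: L2 = L3 ++ r :: s :: L2 := by simp
              rw [e]
              exact formPerm_adjacent (by rw [← e]; exact h1.nodup_iff.mp hn)
            rw [← h4]
            exact .step r hG (by rw [h4]; exact hs)
        · exact ⟨s, hsW, hs, .base⟩
  refine key L.length L [] q (hL.trans (rot_of_eq (u := [q]) (v := L) rfl rfl)) le_rfl ?_
  have : t ∈ q :: L := hL.mem_iff.mp ht
  simp only [List.mem_cons, List.mem_append, List.mem_singleton] at this ⊢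
  rcases this with h | h
  · exact Or.inr (Or.inl h)
  · exact Or.inl h

lemma formPerm_map_p (hinv : ∀ t, p (p t) = t) {l : List Ω} (hn : l.Nodup) {s : Ω} (hs : s ∈ l) :
    formPerm (l.map p) (p s) = p (formPerm l s) := by
  have hinj : Function.Injective p := fun s t hst => by
    have := congrArg p hst
    rwa [hinv, hinv] at this
  obtain ⟨L, hL⟩ := exists_rot_cons hs
  have h1 := hL.map p
  rw [formPerm_eq_of_isRotated (hn.map hinj) h1, formPerm_eq_of_isRotated hn hL]
  cases L with
  | nil => simp
  | cons r L =>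
      have h2 := hL.nodup_iff.mp hn
      have h3 := h1.nodup_iff.mp (hn.map hinj)
      rw [formPerm_apply_head s r L h2]
      simp only [List.map_cons] at h3 ⊢
      exact formPerm_apply_head (p s) (p r) _ h3

/-- the successor of a token is mixed before iff it is mixed afterwards. -/
lemma succ_mixed {W W' : List Ω} (hn : W.Nodup) (hn' : W'.Nodup) (hp : W'.Perm W)
    (hs : ∀ s ∈ W, p (formPerm W s) ∈ W → formPerm W' s = formPerm W s) {q : Ω} (hq : q ∈ W)
    (hqm : p (formPerm W q) ∉ W) : p (formPerm W' q) ∉ W := by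
  intro h
  have h1 : formPerm W' q ∈ W := hp.mem_iff.mp (formPerm_apply_mem_of_mem (hp.mem_iff.mpr hq))
  -- the predecessor of `formPerm W' q` in `W`
  obtain ⟨s, hsW, hs1⟩ : ∃ s ∈ W, formPerm W s = formPerm W' q := by
    refine ⟨(formPerm W)⁻¹ (formPerm W' q), ?_, by simp⟩
    rw [← formPerm_reverse, ← List.mem_reverse] at *
    exact formPerm_apply_mem_of_mem h1
  have h2 := hs s hsW (by rw [hs1]; exact h)
  rw [hs1] at h2
  have h3 : s = q := (formPerm W').injective h2
  subst h3
  rw [hs1] at hqm
  exact hqm h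

/-- not reversed. -/
def NRR (p : Ω → Ω) (A B : List Ω) : Prop := ¬ RRf (rhos p A B) (coreA p A B) (coreB p A B)

/-- **ATTACH.** -/
theorem ATTACH {A B : List Ω} (h : NTH.WF p (A, B)) (hR : NRR p A B) {q y u : Ω} (hq : q ∈ A)
    (hy : y ∈ B) (hqm : p (formPerm A q) ∈ B) (link : formPerm B y = p (formPerm A q))
    (hu : u ∈ A) (hum : p u ∈ B) (hug : ¬ Gr p A u q) (hug' : ¬ Gr p B (p u) y) :
    ∃ A' B', EMs p 0 (A, B) (A', B') ∧ Inv p A B A' B' ∧ formPerm A' q = u ∧
      formPerm B' y = p u := by
  set x := formPerm A q with hx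
  have hxA : x ∈ A := formPerm_apply_mem_of_mem hq
  have hpxB : p x ∈ B := hqm
  have hpxA : p x ∉ A := fun h' => WF.dj h h' hpxB
  have mA : ∀ t ∈ A, (decide (p t ∈ B)) = true ↔ p t ∉ A := by
    intro t ht
    rw [decide_eq_true_eq]
    constructor
    · exact fun h1 h2 => WF.dj h h2 h1
    · intro h1
      rcases List.mem_append.mp (h.cl t (List.mem_append_left _ ht)) with h2 | h2
      · exact absurd h2 h1
      · exact h2
  have mB : ∀ t ∈ B, (decide (p t ∈ A)) = true ↔ p t ∉ B := by
    intro t ht
    rw [decide_eq_true_eq]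
    constructor
    · exact fun h1 h2 => WF.dj h h1 h2
    · intro h1
      rcases List.mem_append.mp (h.cl t (List.mem_append_right _ ht)) with h2 | h2
      · exact h2
      · exact absurd h2 h1
  obtain ⟨g, hg, hgm, hG⟩ := exists_ground (p := p) (WF.nA h) hq ⟨x, hxA, hpxA⟩
  have hpxB' : p (p x) ∉ B := by
    rw [h.inv]
    exact fun h' => WF.dj h hxA h'
  obtain ⟨g', hg', hgm', hG'⟩ := exists_ground (p := p) (WF.nB h) hy ⟨p x, hpxB, hpxB'⟩
  have hgB : p g ∈ B := by
    have := (mA g hg).mpr hgm
    simpa using this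
  have hgA' : p g' ∈ A := by
    have := (mB g' hg').mpr hgm'
    simpa using this
  have c1 : formPerm (coreA p A B) g = x :=
    core_succ (WF.nA h) hG hg hgm (by rw [← hx]; exact hpxA) mA
  have c2 : formPerm (B.filter (fun t => decide (p t ∈ A))) g' = p x := by
    rw [core_succ (WF.nB h) hG' hg' hgm' (by rw [link]; exact hpxB') mB]
    exact link
  have c3 : formPerm (coreB p A B) (p g') = x := by
    unfold coreB
    rw [formPerm_map_p h.inv ((WF.nB h).filter _)
      (List.mem_filter.mpr ⟨hg', by simpa using hgA'⟩), c2, h.inv]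
  have hrho : rhos p A B g = p g' := by
    unfold rhos
    rw [Perm.mul_apply, c1, Perm.inv_eq_iff_eq, c3]
  have hgT : g ∈ (coreA p A B).toFinset := by
    rw [List.mem_toFinset, mem_coreA]
    exact ⟨hg, hgB⟩
  have huT : u ∈ (coreA p A B).toFinset := by
    rw [List.mem_toFinset, mem_coreA]
    exact ⟨hu, hum⟩
  have hug1 : u ≠ g := by
    rintro rfl
    exact hug hG
  have hug2 : u ≠ rhos p A B g := by
    rw [hrho]
    intro h1
    rw [h1, h.inv] at hug'
    exact hug' hG'
  obtain ⟨n, -, a', b', hw, hau⟩ := attach _ (St_core h) rfl hgT huT hug1 hug2 hR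
  obtain ⟨A', B', hE, hI, ha', hb'⟩ := lift_walk n h hw
  have h' : NTH.WF p (A', B') := WF.perm h hI.pa hI.pb
  have hSt' : St (coreA p A B).toFinset (rhos p A B) a' b' := (St_core h).walk hw
  have e1 : (fun t => decide (p t ∈ B')) = (fun t => decide (p t ∈ B)) := by
    funext t
    simp [hI.pb.mem_iff]
  have e2 : (fun t => decide (p t ∈ A')) = (fun t => decide (p t ∈ A)) := by
    funext t
    simp [hI.pa.mem_iff]
  refine ⟨A', B', hE, hI, ?_, ?_⟩
  · have k1 : Gr p A' g q := hG.trans' hg hI.pa hI.sa
    have k2 : p (formPerm A' q) ∉ A := succ_mixed (WF.nA h) (WF.nA h') hI.pa hI.sa hq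
      (by rw [← hx]; exact hpxA)
    have k3 := core_succ (m := fun t => decide (p t ∈ B)) (WF.nA h') k1
      (hI.pa.mem_iff.mpr hg) (fun h1 => hgm (hI.pa.mem_iff.mp h1))
      (fun h1 => k2 (hI.pa.mem_iff.mp h1)) (fun t ht => by
        rw [mA t (hI.pa.mem_iff.mp ht), hI.pa.mem_iff])
    have k4 : formPerm (coreA p A' B') g = formPerm a' g := by
      rw [formPerm_eq_of_isRotated (St_core h').nodup ha']
    unfold coreA at k4
    rw [e1, k3, hau] at k4
    exact k4
  · have k1 : Gr p B' g' y := hG'.trans' hg' hI.pb hI.sb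
    have k2 : p (formPerm B' y) ∉ B := succ_mixed (WF.nB h) (WF.nB h') hI.pb hI.sb hy
      (by rw [link]; exact hpxB')
    have k3 := core_succ (m := fun t => decide (p t ∈ A)) (WF.nB h') k1
      (hI.pb.mem_iff.mpr hg') (fun h1 => hgm' (hI.pb.mem_iff.mp h1))
      (fun h1 => k2 (hI.pb.mem_iff.mp h1)) (fun t ht => by
        rw [mB t (hI.pb.mem_iff.mp ht), hI.pb.mem_iff])
    have k5 : formPerm b' (p g') = u := by
      have h1 := hSt'.rho
      have h2 : (formPerm b')⁻¹ (formPerm a' g) = p g' := by
        rw [← Perm.mul_apply, h1, hrho]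
      rw [Perm.inv_eq_iff_eq, hau] at h2
      exact h2.symm
    have k6 : formPerm (coreB p A' B') (p g') = u := by
      rw [formPerm_eq_of_isRotated ((St_core h').nodupB) hb', k5]
    have k7 : formPerm (coreB p A' B') (p g') = p (formPerm B' y) := by
      unfold coreB
      rw [e2, formPerm_map_p h.inv ((WF.nB h').filter _)
        (List.mem_filter.mpr ⟨hI.pb.mem_iff.mpr hg', by simpa using hgA'⟩), k3]
    rw [k7] at k6
    rw [← k6, h.inv]

/-- **ATTACH**, list form. -/
theorem ATTACH' {A B : List Ω} (h : NTH.WF p (A, B)) (hR : NRR p A B) {q y u : Ω} (hq : q ∈ A)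
    (hy : y ∈ B) (hqm : p (formPerm A q) ∈ B) (link : formPerm B y = p (formPerm A q))
    (hu : u ∈ A) (hum : p u ∈ B) (hug : ¬ Gr p A u q) (hug' : ¬ Gr p B (p u) y)
    (hyl : B.getLast? ≠ some y) :
    ∃ A1 B1 B2, EMs p 0 (A, B) (q :: u :: A1, B1 ++ y :: p u :: B2) ∧
      Inv p A B (q :: u :: A1) (B1 ++ y :: p u :: B2) := by
  obtain ⟨A', B', hE, hI, h1, h2⟩ := ATTACH h hR hq hy hqm link hu hum hug hug'
  have h' : NTH.WF p (A', B') := WF.perm h hI.pa hI.pb
  have hqu : q ≠ u := by
    rintro rfl
    exact hug .base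
  obtain ⟨L, hL⟩ := exists_rot_cons (hI.pa.mem_iff.mpr hq)
  obtain ⟨A1, rfl⟩ : ∃ A1, L = u :: A1 := by
    rw [formPerm_eq_of_isRotated (WF.nA h') hL] at h1
    cases L with
    | nil => exact absurd (by simpa using h1) hqu
    | cons s L =>
        rw [formPerm_apply_head q s L (hL.nodup_iff.mp (WF.nA h'))] at h1
        exact ⟨L, by rw [h1]⟩
  obtain ⟨B1, L2, hB⟩ := List.append_of_mem (hI.pb.mem_iff.mpr hy)
  obtain ⟨B2, rfl⟩ : ∃ B2, L2 = p u :: B2 := by
    cases L2 with
    | nil =>
        exfalso
        apply hyl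
        rw [← hI.last, hB]
        simp
    | cons s L2 =>
        rw [hB] at h2
        rw [formPerm_adjacent (by rw [← hB]; exact WF.nB h')] at h2
        exact ⟨L2, by rw [h2]⟩
  subst hB
  refine ⟨A1, B1, B2, ?_, ?_⟩
  · simpa using hE.trans (rotEM (p := p) _ hL)
  · refine hI.trans ⟨hL.perm.symm, .refl _, rfl, ?_, fun _ _ _ => rfl⟩
    intro s _ _
    exact (formPerm_eq_of_isRotated (WF.nA h') hL ▸ rfl)

end Pool.Agent.helper32.ATT
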