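import Pool.Agent.helper36.NA.Defs
import Pool.Agent.helper55.NTS.Conv
import Pool.Agent.helper55.NA.Br
import Pool.Agent.helper3.NA.Inv
import Pool.Agent.helper32.ATT.State

/-! ATTACH with the definitions of `NA` (MP_c8d30a, theorem (A), section 6). -/

namespace Pool.Agent.helper32.ATT

set_option linter.unusedSectionVars false
set_option linter.unusedSimpArgs false
set_option linter.unusedVariables false

open Equiv Equiv.Perm List NTH

variable {Ω : Type} [DecidableEq Ω] {p : Ω → Ω}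

lemma sc_A {s : NTH.St Ω} (hw : NTH.WF p s) {t : Ω} (ht : t ∈ s.1) : NA.sc s t = formPerm s.1 t := by
  have : t ∉ s.2 := fun h => (List.nodup_append.mp hw.nd).2.2 t ht t h rfl
  rw [NA.sc, Perm.mul_apply, formPerm_apply_of_notMem this]

lemma sc_B {s : NTH.St Ω} (hw : NTH.WF p s) {t : Ω} (ht : t ∈ s.2) : NA.sc s t = formPerm s.2 t := by
  have h1 : formPerm s.2 t ∈ s.2 := formPerm_apply_mem_of_mem ht
  have : formPerm s.2 t ∉ s.1 := fun h => (List.nodup_append.mp hw.nd).2.2 _ h _ h1 rfl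
  rw [NA.sc, Perm.mul_apply, formPerm_apply_of_notMem this]

lemma mem_pdA {s : NTH.St Ω} (hw : NTH.WF p s) {v : Ω} (hv : v ∈ s.1) : NA.pd s v ∈ s.1 := by
  by_contra h
  have h1 : NA.sc s (NA.pd s v) = v := by simp [NA.pd]
  by_cases h2 : NA.pd s v ∈ s.2
  · rw [sc_B hw h2] at h1
    have h3 : formPerm s.2 (NA.pd s v) ∈ s.2 := formPerm_apply_mem_of_mem h2
    rw [h1] at h3
    exact (List.nodup_append.mp hw.nd).2.2 v hv v h3 rfl
  · rw [NA.sc, Perm.mul_apply, formPerm_apply_of_notMem h2, formPerm_apply_of_notMem h] at h1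
    rw [h1] at h
    exact h hv

lemma mem_pdB {s : NTH.St Ω} (hw : NTH.WF p s) {v : Ω} (hv : v ∈ s.2) : NA.pd s v ∈ s.2 := by
  by_contra h
  have h1 : NA.sc s (NA.pd s v) = v := by simp [NA.pd]
  by_cases h2 : NA.pd s v ∈ s.1
  · rw [sc_A hw h2] at h1
    have h3 : formPerm s.1 (NA.pd s v) ∈ s.1 := formPerm_apply_mem_of_mem h2
    rw [h1] at h3
    exact (List.nodup_append.mp hw.nd).2.2 v h3 v hv rfl
  · rw [NA.sc, Perm.mul_apply, formPerm_apply_of_notMem h, formPerm_apply_of_notMem h2] at h1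
    rw [h1] at h
    exact h hv

lemma Gr.gndA {s : NTH.St Ω} (hw : NTH.WF p s) {u q : Ω} (hu : NA.MA p s u) (h : Gr p s.1 u q) :
    NA.Gnd p s q u := by
  induction h with
  | base => exact .selfA u hu
  | step q h hc ih =>
      have hq : q ∈ s.1 := h.mem hu.1
      have h1 : formPerm s.1 q ∈ s.1 := formPerm_apply_mem_of_mem hq
      refine .red _ _ ⟨h1, hc⟩ ?_
      have h2 : NA.pd s (formPerm s.1 q) = q := by
        rw [← sc_A hw hq]; simp [NA.pd]
      rw [h2]
      exact ih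

lemma Gr.gndB {s : NTH.St Ω} (hw : NTH.WF p s) {u q : Ω} (hu : NA.MB p s u) (h : Gr p s.2 u q) :
    NA.Gnd p s q u := by
  induction h with
  | base => exact .selfB u hu
  | step q h hc ih =>
      have hq : q ∈ s.2 := h.mem hu.1
      have h1 : formPerm s.2 q ∈ s.2 := formPerm_apply_mem_of_mem hq
      refine .blu _ _ ⟨h1, hc⟩ ?_
      have h2 : NA.pd s (formPerm s.2 q) = q := by
        rw [← sc_B hw hq]; simp [NA.pd]
      rw [h2]
      exact ih

lemma RR.na {a b : List Ω} (h : RR a b) : NA.RR a b := by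
  induction h with
  | rev h => exact .rev _ _ h
  | fix x s ha hb h ih => exact .fix x s _ _ _ _ ha hb ih

lemma RR.ofNa {a b : List Ω} (h : NA.RR a b) : RR a b := by
  induction h with
  | rev a b h => exact .rev h
  | fix x s a b a' b' ha hb h ih => exact .fix x s ha hb ih

lemma nrr {s : NTH.St Ω} (hw : NTH.WF p s) (h : ¬ NA.RR (NA.cA p s) (NA.cB p s)) :
    NRR p s.1 s.2 := by
  intro h1
  exact h ((RR_iff (St_core (A := s.1) (B := s.2) hw)).mpr h1).na

/-- **ATTACH** with the definitions of `NA`. -/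
theorem attach_na {s : NTH.St Ω} (hw : NTH.WF p s) (hR : ¬ NA.RR (NA.cA p s) (NA.cB p s))
    {q y u : Ω} (hq : q ∈ s.1) (hy : y ∈ s.2) (hmu : NA.mu p s y = q) (hu : NA.MA p s u)
    (h1 : ¬ NA.Gnd p s q u) (h2 : ¬ NA.Gnd p s y (p u)) :
    ∃ t, NA.Pa p 0 s t ∧ t.1.Perm s.1 ∧ t.2.Perm s.2 ∧ t.2.getLast? = s.2.getLast? ∧
      NA.sc t q = u ∧ NA.sc t y = p u ∧ NTH.WF p t ∧
      (∀ v, NA.Red p s v ∨ NA.Blu p s v → NA.pd t v = NA.pd s v) := by
  have e1 : NA.sc s q = p (NA.sc s y) := by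
    rw [← hmu]
    simp [NA.mu]
  rw [sc_A hw hq, sc_B hw hy] at e1
  have e2 : formPerm s.2 y = p (formPerm s.1 q) := by rw [e1, hw.inv]
  have hyB : formPerm s.2 y ∈ s.2 := formPerm_apply_mem_of_mem hy
  obtain ⟨A', B', hE, hI, k1, k2⟩ := ATTACH (A := s.1) (B := s.2) (p := p) hw (nrr hw hR) hq hy
    (by rw [← e2]; exact hyB) e2 hu.1 hu.2 (fun h => h1 (h.gndA hw hu))
    (fun h => h2 (h.gndB hw ⟨hu.2, by rw [hw.inv]; exact hu.1⟩))
  have hw' : NTH.WF p (A', B') := WF.perm (A := s.1) (B := s.2) hw hI.pa hI.pb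
  refine ⟨(A', B'), NA.chain_pa (hE.chain0 rfl), hI.pa, hI.pb, hI.last, ?_, ?_, hw', ?_⟩
  · rw [sc_A hw' (hI.pa.mem_iff.mpr hq)]; exact k1
  · rw [sc_B hw' (hI.pb.mem_iff.mpr hy)]; exact k2
  · intro v hv
    have hs : NA.sc s (NA.pd s v) = v := by simp [NA.pd]
    have key : NA.sc (A', B') (NA.pd s v) = v := by
      rcases hv with hv | hv
      · have m := mem_pdA hw hv.1
        rw [sc_A hw m] at hs
        rw [sc_A hw' (hI.pa.mem_iff.mpr m)]
        have := hI.sa _ m (by rw [hs]; exact hv.2)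
        rw [hs] at this
        exact this
      · have m := mem_pdB hw hv.1
        rw [sc_B hw m] at hs
        rw [sc_B hw' (hI.pb.mem_iff.mpr m)]
        have := hI.sb _ m (by rw [hs]; exact hv.2)
        rw [hs] at this
        exact this
    show (NA.sc (A', B')).symm v = NA.pd s v
    rw [Equiv.symm_apply_eq]
    exact key.symm

end Pool.Agent.helper32.ATT
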