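import Pool.Agent.helper36.WE.NF

/-! The attach lemma: the join lemma for pairs of cyclic words with letters that have the same
successor in both words. -/

namespace Pool.Agent.helper32.ATT

set_option linter.unusedSectionVars false
set_option linter.unusedSimpArgs false

open Pool.Agent.helper36.WE Equiv Equiv.Perm List

variable {X : Type} [DecidableEq X]

lemma rot_filter {l l' : List X} (h : l ~r l') (q : X → Bool) : l.filter q ~r l'.filter q := by
  obtain ⟨k, hk⟩ := h
  rcases List.eq_nil_or_concat l with hl0 | hl0
  · subst hl0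
    rw [List.rotate_nil] at hk
    rw [← hk]
  have hlen : 0 < l.length := by
    obtain ⟨u, v, rfl⟩ := hl0
    simp
  have h1 : l = l.take (k % l.length) ++ l.drop (k % l.length) := (List.take_append_drop _ _).symm
  have h2 : l' = l.drop (k % l.length) ++ l.take (k % l.length) := by
    rw [← hk, ← List.rotate_mod, List.rotate_eq_drop_append_take (Nat.mod_lt _ hlen).le]
  rw [h2]
  conv_lhs => rw [h1]
  rw [List.filter_append, List.filter_append]
  exact rot_append _ _

lemma Rev.rot {a b a' b' : List X} (h : Rev a b) (ha : a ~r a') (hb : b ~r b') : Rev a' b' := by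
  unfold Rev at *
  exact (hb.symm.trans h).trans ha.reverse

/-- Rotations of a duplicate free word with the same first letter are equal. -/
lemma rot_head_eq {s : X} {l l' : List X} (hn : (s :: l).Nodup) (h : (s :: l) ~r (s :: l')) :
    l = l' := by
  obtain ⟨k, hk⟩ := h
  have hlen : 0 < (s :: l).length := by simp
  rw [← List.rotate_mod] at hk
  set j := k % (s :: l).length with hj
  have hjl : j < (s :: l).length := Nat.mod_lt _ hlen
  have h0 : ((s :: l).rotate j)[0]? = some s := by rw [hk]; rfl
  rw [List.getElem?_rotate (by simp)] at h0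
  rw [zero_add, Nat.mod_eq_of_lt hjl] at h0
  have h1 : (s :: l)[0]? = some s := rfl
  have h2 : j = 0 := by
    obtain ⟨h3, h4⟩ := List.getElem?_eq_some_iff.mp h0
    obtain ⟨h5, h6⟩ := List.getElem?_eq_some_iff.mp h1
    exact (List.Nodup.getElem_inj_iff hn).mp (h4.trans h6.symm)
  rw [h2, List.rotate_zero] at hk
  exact (List.cons.inj hk).2

lemma idx1 {x z : X} {L1 L2 L3 : List X} (h : (L1 ++ x :: (L2 ++ z :: L3)).Nodup) :
    (L1 ++ x :: (L2 ++ z :: L3)).idxOf x = L1.length ∧
      (L1 ++ x :: (L2 ++ z :: L3)).idxOf z = L1.length + 1 + L2.length := by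
  have hx1 : x ∉ L1 := by
    intro h'
    exact (List.nodup_append.mp h).2.2 x h' x (by simp) rfl
  have hz1 : z ∉ L1 := by
    intro h'
    exact (List.nodup_append.mp h).2.2 z h' z (by simp) rfl
  have h2 := (List.nodup_append.mp h).2.1
  have hxz : x ≠ z := by
    rintro rfl
    simp at h2
  have hz2 : z ∉ L2 := by
    intro h'
    have h3 := (List.nodup_cons.mp h2).2
    exact (List.nodup_append.mp h3).2.2 z h' z (by simp) rfl
  constructor
  · rw [List.idxOf_append_of_notMem hx1, List.idxOf_cons_self, add_zero]
  · rw [List.idxOf_append_of_notMem hz1, List.idxOf_cons_ne _ hxz,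
      List.idxOf_append_of_notMem hz2, List.idxOf_cons_self]
    omega

/-- A reversed state is not the target of a triple swap. -/
lemma not_rev_of_CM {a b a' b' : List X} (hm : CM (a, b) (a', b')) (ha : a'.Nodup)
    (hb : b'.Nodup) (h : Rev a' b') : False := by
  obtain ⟨x, y, z, P, Q, R, P', Q', R', e1, e2, e3, e4⟩ := hm
  simp only at e1 e2 e3 e4
  have h1 : Rev ((y :: Q) ++ (x :: P) ++ (z :: R)) ((y :: Q') ++ (x :: P') ++ (z :: R')) :=
    Rev.rot h e3 e4
  have hn1 := e3.nodup_iff.mp ha
  have hn2 := e4.nodup_iff.mp hb
  unfold Rev at h1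
  have h2 : ((y :: Q) ++ (x :: P) ++ (z :: R)).reverse ~r
      (y :: (R.reverse ++ z :: (P.reverse ++ x :: Q.reverse))) :=
    rot_of_eq (u := R.reverse ++ z :: (P.reverse ++ x :: Q.reverse)) (v := [y]) (by simp) (by simp)
  have h3 : (y :: (Q' ++ x :: (P' ++ z :: R'))) ~r
      (y :: (R.reverse ++ z :: (P.reverse ++ x :: Q.reverse))) := by
    have := h1.trans h2
    simpa using this
  have hn3 : (y :: (Q' ++ x :: (P' ++ z :: R'))).Nodup := by simpa using hn2
  have h4 := rot_head_eq hn3 h3
  have hn4 := (List.nodup_cons.mp hn3).2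
  have hn5 := hn4
  rw [h4] at hn5
  have i1 := idx1 hn4
  have i2 := idx1 hn5
  rw [h4] at i1
  rw [i2.1, i2.2] at i1
  omega

lemma not_rev_of_walk {n : ℕ} : ∀ {a b a' b' : List X}, Walk CM n (a, b) (a', b') → a.Nodup →
    b.Nodup → Rev a' b' → ¬ Rev a b → False := by
  intro a b a' b' hw ha hb h hn
  obtain ⟨f, f0, fn, hf⟩ := hw
  cases n with
  | zero =>
      rw [f0, Prod.mk.injEq] at fn
      rw [fn.1, fn.2] at hn
      exact hn h
  | succ n =>
      have key : ∀ i ≤ n + 1, (f i).1.Nodup ∧ (f i).2.Nodup := by
        intro i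
        induction i with
        | zero => intro _; rw [f0]; exact ⟨ha, hb⟩
        | succ i ih =>
            intro hi
            obtain ⟨h1, h2⟩ := ih (by omega)
            obtain ⟨p1, p2⟩ := CM_perm_lists (hf i (by omega))
            exact ⟨p1.nodup_iff.mp h1, p2.nodup_iff.mp h2⟩
      have h1 := hf n (by omega)
      have h2 := key (n + 1) le_rfl
      rw [fn] at h1 h2
      exact not_rev_of_CM (a := (f n).1) (b := (f n).2) h1 h2.1 h2.2 h

/-- A letter with the same successor in both words can be placed before any other letter. The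
order of the other letters is not changed. -/
lemma place {T : Finset X} {ρ : Perm X} {a b : List X} (h : St T ρ a b) {f g : X}
    (hf : f ∈ T) (hg : g ∈ T) (hfg : f ≠ g) (hρ : ρ f = f) :
    ∃ n ≤ 1, ∃ a' b' R R', Walk CM n (a, b) (a', b') ∧ a' ~r f :: g :: R ∧
      b' ~r f :: g :: R' ∧ ∀ q : X → Bool, q f = false →
        a.filter q ~r (g :: R).filter q ∧ b.filter q ~r (g :: R').filter q := by
  have hfa : f ∈ a := by rw [← List.mem_toFinset, h.supp]; exact hf
  have hfb : f ∈ b := h.perm.subset hfa
  have hga : g ∈ a := by rw [← List.mem_toFinset, h.supp]; exact hg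
  have hgb : g ∈ b := h.perm.subset hga
  obtain ⟨A, hA⟩ := exists_rot_cons hfa
  obtain ⟨B, hB⟩ := exists_rot_cons hfb
  have hAn := hA.nodup_iff.mp h.nodup
  have hBn := hB.nodup_iff.mp h.nodupB
  have hgA : g ∈ A := by
    have : g ∈ f :: A := hA.mem_iff.mp hga
    simpa [hfg.symm] using this
  have hgB : g ∈ B := by
    have : g ∈ f :: B := hB.mem_iff.mp hgb
    simpa [hfg.symm] using this
  have hsucc : formPerm (f :: A) f = formPerm (f :: B) f := by
    rw [← formPerm_eq_of_isRotated h.nodup hA, ← formPerm_eq_of_isRotated h.nodupB hB]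
    have h1 := hρ
    rw [← h.rho, Perm.mul_apply, Perm.inv_eq_iff_eq] at h1
    exact h1
  cases A with
  | nil => simp at hgA
  | cons s A =>
      cases B with
      | nil => simp at hgB
      | cons s' B =>
          rw [formPerm_apply_head f s A hAn, formPerm_apply_head f s' B hBn] at hsucc
          subst hsucc
          by_cases hsg : s = g
          · subst hsg
            refine ⟨0, by omega, a, b, A, B, Walk.refl _ _, hA, hB, fun q hq => ?_⟩
            have h1 := rot_filter hA q
            have h2 := rot_filter hB q
            rw [List.filter_cons_of_neg (by simp [hq])] at h1 h2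
            exact ⟨h1, h2⟩
          · have hgA' : g ∈ A := by simpa [Ne.symm hsg] using hgA
            have hgB' : g ∈ B := by simpa [Ne.symm hsg] using hgB
            obtain ⟨Q, R, rfl⟩ := List.append_of_mem hgA'
            obtain ⟨Q', R', rfl⟩ := List.append_of_mem hgB'
            refine ⟨1, le_rfl, (s :: Q) ++ [f] ++ (g :: R), (s :: Q') ++ [f] ++ (g :: R'),
              R ++ (s :: Q), R' ++ (s :: Q'), Walk.single ?_, ?_, ?_, fun q hq => ?_⟩
            · refine ⟨f, s, g, [], Q, R, [], Q', R', ?_, ?_, ?_, ?_⟩
              · simpa using hA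
              · simpa using hB
              · exact List.IsRotated.refl _
              · exact List.IsRotated.refl _
            · exact rot_of_eq (u := s :: Q) (v := f :: g :: R) (by simp) (by simp)
            · exact rot_of_eq (u := s :: Q') (v := f :: g :: R') (by simp) (by simp)
            · have h1 := rot_filter hA q
              have h2 := rot_filter hB q
              rw [List.filter_cons_of_neg (by simp [hq])] at h1 h2
              refine ⟨h1.trans ?_, h2.trans ?_⟩
              · exact rot_filter (rot_of_eq (u := s :: Q) (v := g :: R) (by simp) (by simp)) q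
              · exact rot_filter (rot_of_eq (u := s :: Q') (v := g :: R') (by simp) (by simp)) q

lemma filter_ne_of_notMem {f : X} {l : List X} (h : f ∉ l) :
    l.filter (fun s => decide (s ≠ f)) = l := by
  rw [List.filter_eq_self]
  intro s hs
  simp only [decide_eq_true_eq]
  rintro rfl
  exact h hs

lemma formPerm_del {l : List X} {f p : X} (hl : l.Nodup) (hf : f ∈ l) (hp : p ∈ l) (hpf : p ≠ f)
    (h : formPerm l p ≠ f) : formPerm (l.filter (fun s => decide (s ≠ f))) p = formPerm l p := by
  obtain ⟨L, hL⟩ := exists_rot_cons hf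
  have hn := hL.nodup_iff.mp hl
  have hfL := (List.nodup_cons.mp hn).1
  have h1 : l.filter (fun s => decide (s ≠ f)) ~r L := by
    have h2 := rot_filter hL (fun s => decide (s ≠ f))
    rw [List.filter_cons_of_neg (by simp), filter_ne_of_notMem hfL] at h2
    exact h2
  have hLn := (List.nodup_cons.mp hn).2
  rw [formPerm_eq_of_isRotated (h1.nodup_iff.mpr hLn) h1]
  rw [formPerm_eq_of_isRotated hl hL] at h ⊢
  have hpL : p ∈ L := by
    have : p ∈ f :: L := hL.mem_iff.mp hp
    simpa [hpf] using this
  cases L with
  | nil => simp at hpL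
  | cons s L =>
      rw [formPerm_cons_cons, Perm.mul_apply] at h ⊢
      rw [swap_apply_of_ne_of_ne]
      · intro h3
        have : formPerm (s :: L) p ∈ s :: L := formPerm_apply_mem_of_mem hpL
        rw [h3] at this
        exact hfL this
      · intro h3
        rw [h3, swap_apply_right] at h
        exact h rfl

/-- A letter with the same successor in both words can be placed behind any other letter of the
first word. -/
lemma place_after {T : Finset X} {ρ : Perm X} {a b : List X} (h : St T ρ a b) {f p : X}
    (hf : f ∈ T) (hp : p ∈ T) (hfp : f ≠ p) (hρ : ρ f = f) :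
    ∃ n ≤ 1, ∃ a' b', Walk CM n (a, b) (a', b') ∧ formPerm a' p = f := by
  have hpa : p ∈ a := by rw [← List.mem_toFinset, h.supp]; exact hp
  have hfa : f ∈ a := by rw [← List.mem_toFinset, h.supp]; exact hf
  by_cases hgf : formPerm a p = f
  · exact ⟨0, by omega, a, b, Walk.refl _ _, hgf⟩
  have hga : formPerm a p ∈ a := formPerm_apply_mem_of_mem hpa
  have hgT : formPerm a p ∈ T := by rw [← h.supp, List.mem_toFinset]; exact hga
  obtain ⟨n, hn, a', b', R, R', hw, ha', hb', hq⟩ := place h hf hgT (Ne.symm hgf) hρ
  refine ⟨n, hn, a', b', hw, ?_⟩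
  have h1 := (hq (fun s => decide (s ≠ f)) (by simp)).1
  have h' : St T ρ a' b' := h.walk hw
  have hn' := ha'.nodup_iff.mp h'.nodup
  have hfR := (List.nodup_cons.mp hn').1
  rw [filter_ne_of_notMem hfR] at h1
  have h2 := formPerm_del h.nodup hfa hpa (Ne.symm hfp) hgf
  have hnf : (a.filter (fun s => decide (s ≠ f))).Nodup := h.nodup.filter _
  rw [formPerm_eq_of_isRotated hnf h1] at h2
  rw [formPerm_eq_of_isRotated h'.nodup ha', formPerm_cons_cons, Perm.mul_apply, h2,
    swap_apply_right]

/-- Reversed after deletion of the letters with the same successor in both words. -/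
def RRf (ρ : Perm X) (a b : List X) : Prop :=
  Rev (a.filter (fun s => decide (ρ s ≠ s))) (b.filter (fun s => decide (ρ s ≠ s)))

lemma RRf.rot {ρ : Perm X} {a b a' b' : List X} (h : RRf ρ a b) (ha : a ~r a') (hb : b ~r b') :
    RRf ρ a' b' := Rev.rot h (rot_filter ha _) (rot_filter hb _)

/-- The case without letters with the same successor. -/
lemma attach_base {T : Finset X} {ρ : Perm X} {a b : List X} (h : St T ρ a b)
    (hF : ∀ f ∈ T, ρ f ≠ f) {p z : X} (hp : p ∈ T) (hz : z ∈ T) (hzp : z ≠ p) (hzr : z ≠ ρ p)
    (hR : ¬ Rev a b) :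
    ∃ n ≤ 2 * T.card + 4, ∃ a' b', Walk CM n (a, b) (a', b') ∧ formPerm a' p = z := by
  set r := ρ p with hrdef
  have hr : r ∈ T := h.rho_mem hp
  have hpa : p ∈ a := by rw [← List.mem_toFinset, h.supp]; exact hp
  have hrb : r ∈ b := by
    apply h.perm.subset
    rw [← List.mem_toFinset, h.supp]; exact hr
  obtain ⟨A, hA⟩ := exists_rot_cons hpa
  obtain ⟨B, hB⟩ := exists_rot_cons hrb
  have hA' : a ~r (A ++ [p]) := hA.trans (rot_of_eq (u := [p]) (v := A) rfl rfl)
  have hB' : b ~r (B ++ [r]) := hB.trans (rot_of_eq (u := [r]) (v := B) rfl rfl)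
  have h1 : St T ρ (A ++ [p]) (B ++ [r]) := h.rot hA' hB'
  have hzA : z ∈ A := by
    have : z ∈ A ++ [p] := by rw [← List.mem_toFinset, h1.supp]; exact hz
    simpa [hzp] using this
  have hzB : z ∈ B := by
    have : z ∈ B ++ [r] := by
      apply h1.perm.subset
      rw [← List.mem_toFinset, h1.supp]; exact hz
    simpa [hzr] using this
  cases A with
  | nil => simp at hzA
  | cons x A =>
      cases B with
      | nil => simp at hzB
      | cons x' B =>
          have hx : formPerm ((x :: A) ++ [p]) p = x := by
            rw [List.cons_append]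
            exact formPerm_getLast (getLast_cc _ _ _)
          have hx' : formPerm ((x' :: B) ++ [r]) r = x' := by
            rw [List.cons_append]
            exact formPerm_getLast (getLast_cc _ _ _)
          have hxx : x = x' := by
            have h2 : ρ p = r := rfl
            rw [← h1.rho, Perm.mul_apply, hx, Perm.inv_eq_iff_eq, hx'] at h2
            exact h2
          subst hxx
          have hcut : CutState p r ((x :: A) ++ [p]) ((x :: B) ++ [r]) :=
            ⟨h1.nodup, h1.perm, getLast_cc _ _ _, getLast_cc _ _ _⟩
          by_cases hxz : x = z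
          · subst hxz
            exact ⟨0, by omega, a, b, Walk.refl _ _, by
              rw [formPerm_eq_of_isRotated h.nodup hA']; exact hx⟩
          have hzA' : z ∈ A := by simpa [Ne.symm hxz] using hzA
          have hzB' : z ∈ B := by simpa [Ne.symm hxz] using hzB
          obtain ⟨a1, a2, rfl⟩ := List.append_of_mem hzA'
          obtain ⟨b1, b2, rfl⟩ := List.append_of_mem hzB'
          have e1 : (x :: (a1 ++ z :: a2)) ++ [p] = x :: (a1 ++ z :: (a2 ++ [p])) := by
            simp
          have e2 : (x :: (b1 ++ z :: b2)) ++ [r] = x :: (b1 ++ z :: (b2 ++ [r])) := by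
            simp
          have hlen1 := List.toFinset_card_of_nodup h1.nodup
          have hlen2 := h1.perm.length_eq
          rw [h1.supp] at hlen1
          have hnf1 : NoFix ((x :: (a1 ++ z :: a2)) ++ [p])
              ((x :: (b1 ++ z :: b2)) ++ [r]) := h1.noFix hF
          rw [e1, e2] at hcut hnf1 hlen2
          rw [e1] at hlen1
          obtain ⟨k, hk, a', b', hw, hend⟩ := join_lemma z (a1.length + b1.length) p r x a1
            (a2 ++ [p]) b1 (b2 ++ [r]) hcut (by simp) (by simp) hnf1 le_rfl
          obtain ⟨a3, b3, hw3, ha3, hb3⟩ := walk_rot (hA'.trans (by rw [e1])).symm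
            (hB'.trans (by rw [e2])).symm hw
          have h3 : St T ρ a3 b3 := h.walk hw3
          refine ⟨k, ?_, a3, b3, hw3, ?_⟩
          · simp only [List.length_cons, List.length_append] at hlen1 hlen2
            omega
          · rcases hend with ⟨_, hrev⟩ | ⟨hcut', hza, _⟩
            · exfalso
              exact not_rev_of_walk hw3 h.nodup h.nodupB (Rev.rot hrev ha3.symm hb3.symm) hR
            · rw [formPerm_eq_of_isRotated h3.nodup ha3]
              cases a' with
              | nil => simp at hza
              | cons s a' =>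
                  simp only [List.head?_cons, Option.some.injEq] at hza
                  subst hza
                  exact formPerm_getLast hcut'.lastA

/-- Deleting a letter with the same successor in both words. -/
lemma St.del {T : Finset X} {ρ : Perm X} {a b : List X} (h : St T ρ a b) {f g : X}
    {R R' : List X} (ha : a ~r f :: g :: R) (hb : b ~r f :: g :: R') :
    St (T.erase f) ρ (g :: R) (g :: R') := by
  have h1 : St T ρ (f :: g :: R) (f :: g :: R') := h.rot ha hb
  have hn1 := List.nodup_cons.mp h1.nodup
  refine ⟨hn1.2, (List.perm_cons f).mp h1.perm, ?_, ?_⟩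
  · rw [← h1.supp]
    ext s
    simp only [List.mem_toFinset, Finset.mem_erase, List.mem_cons]
    constructor
    · intro hs
      refine ⟨?_, Or.inr hs⟩
      rintro rfl
      exact hn1.1 (by simpa using hs)
    · rintro ⟨h2, h3⟩
      rcases h3 with h3 | h3
      · exact absurd h3 h2
      · exact h3
  · have h2 := h1.rho
    rw [formPerm_cons_cons, formPerm_cons_cons, mul_inv_rev, mul_assoc, inv_mul_cancel_left] at h2
    exact h2

/-- **Attach lemma.**  In a pair of cyclic words which is not reversed (after deletion of the
letters with the same successor in both words) every letter `z ∉ {p, ρ p}` can be made the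
successor of `p` in the first word (and then of `ρ p` in the second word). -/
theorem attach : ∀ (m : ℕ) {T : Finset X} {ρ : Perm X} {a b : List X} (_ : St T ρ a b)
    (_ : T.card = m) {p z : X} (_ : p ∈ T) (_ : z ∈ T) (_ : z ≠ p) (_ : z ≠ ρ p)
    (_ : ¬ RRf ρ a b),
    ∃ n ≤ 3 * m + 4, ∃ a' b', Walk CM n (a, b) (a', b') ∧ formPerm a' p = z := by
  intro m
  induction m with
  | zero =>
      intro T ρ a b _ hm p z hp
      rw [Finset.card_eq_zero] at hm
      subst hm
      simp at hp
  | succ m ih =>
      intro T ρ a b h hm p z hp hz hzp hzr hR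
      by_cases hzf : ρ z = z
      · obtain ⟨n, hn, a', b', hw, h1⟩ := place_after h hz hp hzp hzf
        exact ⟨n, by omega, a', b', hw, h1⟩
      by_cases hpf : ρ p = p
      · obtain ⟨n, hn, a', b', R, R', hw, ha', hb', _⟩ := place h hp hz (Ne.symm hzp) hpf
        refine ⟨n, by omega, a', b', hw, ?_⟩
        have h' : St T ρ a' b' := h.walk hw
        rw [formPerm_eq_of_isRotated h'.nodup ha']
        exact formPerm_apply_head p z R (ha'.nodup_iff.mp h'.nodup)
      by_cases hF : ∃ f ∈ T, ρ f = f
      · obtain ⟨f, hf, hff⟩ := hF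
        have hfp : f ≠ p := by rintro rfl; exact hpf hff
        have hfz : f ≠ z := by rintro rfl; exact hzf hff
        obtain ⟨n, hn, a1, b1, R, R', hw, ha1, hb1, hq⟩ := place h hf hp hfp hff
        have h1 : St T ρ a1 b1 := h.walk hw
        have h0 : St (T.erase f) ρ (p :: R) (p :: R') := St.del h1 ha1 hb1
        have hR0 : ¬ RRf ρ (p :: R) (p :: R') := by
          intro h'
          obtain ⟨q1, q2⟩ := hq (fun s => decide (ρ s ≠ s)) (by simp [hff])
          exact hR (Rev.rot h' q1.symm q2.symm)
        have hcard : (T.erase f).card = m := by rw [Finset.card_erase_of_mem hf, hm]; rfl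
        obtain ⟨n', hn', a2, b2, hw2, h2⟩ := ih h0 hcard
          (Finset.mem_erase.mpr ⟨Ne.symm hfp, hp⟩) (Finset.mem_erase.mpr ⟨Ne.symm hfz, hz⟩)
          hzp hzr hR0
        have h02 : St (T.erase f) ρ a2 b2 := h0.walk hw2
        have hins : ∀ s : X, ∃ t u v, insBefore f p s = t :: u ∧ insBefore f p s = t :: v := by
          intro s
          unfold insBefore
          split_ifs
          · exact ⟨f, [p], [p], rfl, rfl⟩
          · exact ⟨s, [], [], rfl, rfl⟩
        have hw3 := walk_flatMap hins hw2
        have hpR : p ∉ R := (List.nodup_cons.mp h0.nodup).1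
        have hpR' : p ∉ R' := (List.nodup_cons.mp h0.nodupB).1
        have e1 : (p :: R).flatMap (insBefore f p) = f :: p :: R := by
          rw [List.flatMap_cons, flatMap_insBefore_of_notMem hpR, insBefore, if_pos rfl]
          rfl
        have e2 : (p :: R').flatMap (insBefore f p) = f :: p :: R' := by
          rw [List.flatMap_cons, flatMap_insBefore_of_notMem hpR', insBefore, if_pos rfl]
          rfl
        rw [e1, e2] at hw3
        obtain ⟨a4, b4, hw4, ha4, hb4⟩ := walk_rot ha1.symm hb1.symm hw3
        have h4 : St T ρ a4 b4 := h1.walk hw4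
        refine ⟨n + n', by omega, a4, b4, hw.append hw4, ?_⟩
        have hfa : f ∉ a2 := by
          intro h'
          have : f ∈ T.erase f := by rw [← h02.supp, List.mem_toFinset]; exact h'
          simp at this
        have hpa : p ∈ a2 := by
          rw [← List.mem_toFinset, h02.supp]
          exact Finset.mem_erase.mpr ⟨Ne.symm hfp, hp⟩
        rw [formPerm_eq_of_isRotated h4.nodup ha4, formPerm_insBefore h02.nodup hpa hfa,
          Perm.mul_apply, h2]
        exact swap_apply_of_ne_of_ne (Ne.symm hfz) hzp
      · push Not at hF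
        have hfil : ∀ l : List X, (∀ s ∈ l, s ∈ T) →
            l.filter (fun s => decide (ρ s ≠ s)) = l := by
          intro l hl
          rw [List.filter_eq_self]
          intro s hs
          simp only [decide_eq_true_eq]
          exact hF s (hl s hs)
        have hRev : ¬ Rev a b := by
          intro h'
          apply hR
          unfold RRf
          rw [hfil a (fun s hs => by rw [← h.supp, List.mem_toFinset]; exact hs),
            hfil b (fun s hs => by
              rw [← h.supp, List.mem_toFinset]; exact h.perm.symm.subset hs)]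
          exact h'
        obtain ⟨n, hn, a', b', hw, h1⟩ := attach_base h hF hp hz hzp hzr hRev
        exact ⟨n, by omega, a', b', hw, h1⟩

end Pool.Agent.helper32.ATT
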