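import Pool.Agent.helper3.NTS.EM
import Pool.Agent.helper32.ATT.RRinv

/-! Triple swaps of the core lift to elementary moves of the S-states. -/

namespace Pool.Agent.helper32.ATT

set_option linter.unusedSectionVars false
set_option linter.unusedSimpArgs false

open Pool.Agent.helper36.WE Equiv Equiv.Perm List NTS

variable {Ω : Type} [DecidableEq Ω] {p : Ω → Ω}

/-- the mixed tokens of the first word. -/
def coreA (p : Ω → Ω) (A B : List Ω) : List Ω := A.filter (fun t => decide (p t ∈ B))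

/-- the partners of the mixed tokens of the second word. -/
def coreB (p : Ω → Ω) (A B : List Ω) : List Ω := (B.filter (fun t => decide (p t ∈ A))).map p

lemma rotEM {A A1 : List Ω} (B : List Ω) (h : A ~r A1) : EMs p 0 (A, B) (A1, B) := by
  obtain ⟨k, hk⟩ := h
  rcases List.eq_nil_or_concat A with hl0 | hl0
  · subst hl0
    rw [List.rotate_nil] at hk
    rw [← hk]
    exact .refl _
  have hlen : 0 < A.length := by
    obtain ⟨u, v, rfl⟩ := hl0
    simp
  have h1 : A = A.take (k % A.length) ++ A.drop (k % A.length) := (List.take_append_drop _ _).symm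
  have h2 : A1 = A.drop (k % A.length) ++ A.take (k % A.length) := by
    rw [← hk, ← List.rotate_mod, List.rotate_eq_drop_append_take (Nat.mod_lt _ hlen).le]
  rw [h2]
  conv =>
    arg 3
    rw [h1]
  exact EMs.single (EM.rot _ _ _)

/-- cutting a word along the letters of its filter. -/
lemma split3 {l : List Ω} {q : Ω → Bool} (hn : l.Nodup) {x y z : Ω} {P Q R : List Ω}
    (h : l.filter q ~r (x :: P) ++ (y :: Q) ++ (z :: R)) :
    ∃ P1 Q1 R1, l ~r (x :: P1) ++ (y :: Q1) ++ (z :: R1) ∧ (x :: P1).filter q = x :: P ∧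
      (y :: Q1).filter q = y :: Q ∧ (z :: R1).filter q = z :: R := by
  have hx : x ∈ l.filter q := h.mem_iff.mpr (by simp)
  have hxl : x ∈ l := (List.mem_filter.mp hx).1
  have hxq : q x = true := (List.mem_filter.mp hx).2
  obtain ⟨L, hL⟩ := exists_rot_cons hxl
  have h1 := rot_filter hL q
  rw [List.filter_cons_of_pos hxq] at h1
  have h2 : (x :: L.filter q) ~r (x :: (P ++ (y :: Q) ++ (z :: R))) := by
    have := h1.symm.trans h
    simpa using this
  have hn2 : (x :: L.filter q).Nodup := h1.nodup_iff.mp (hn.filter _)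
  have h3 := rot_head_eq hn2 h2
  rw [List.append_assoc, List.filter_eq_append_iff] at h3
  obtain ⟨P1, L2, rfl, hP, hL2⟩ := h3
  rw [List.filter_eq_append_iff] at hL2
  obtain ⟨Q0, R0, rfl, hQ, hR⟩ := hL2
  rw [List.filter_eq_cons_iff] at hQ hR
  obtain ⟨Q00, Q1, rfl, hQ0, hyq, hQ1⟩ := hQ
  obtain ⟨R00, R1, rfl, hR0, hzq, hR1⟩ := hR
  refine ⟨P1 ++ Q00, Q1 ++ R00, R1, by simpa using hL, ?_, ?_, ?_⟩
  · rw [List.filter_cons_of_pos hxq, List.filter_append, hP,
      List.filter_eq_nil_iff.mpr (by simpa using hQ0), List.append_nil]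
  · rw [List.filter_cons_of_pos hyq, List.filter_append, hQ1,
      List.filter_eq_nil_iff.mpr (by simpa using hR0), List.append_nil]
  · rw [List.filter_cons_of_pos hzq, hR1]

lemma cm_lin {A B : List Ω} (a b c : Ω) (P Q R D P' Q' R' : List Ω)
    (hA : A ~r a :: P ++ (b :: Q ++ c :: R))
    (hB : B = D ++ (p a :: P' ++ (p b :: Q' ++ p c :: R'))) :
    EMs p 0 (A, B) (b :: Q ++ (a :: P ++ c :: R), D ++ (p b :: Q' ++ (p a :: P' ++ p c :: R'))) ∧
      (D ++ (p b :: Q' ++ (p a :: P' ++ p c :: R'))).getLast? = B.getLast? := by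
  constructor
  · have h1 := rotEM (p := p) B hA
    have h2 := EM.cm (p := p) a b c P Q R D P' Q' R'
    rw [← hB] at h2
    simpa using h1.trans (EMs.single h2)
  · rw [hB]
    simp [List.getLast?_append, List.getLast?_cons]

/-- A triple swap of the words of an S-state, all positions of the marker. -/
lemma lift_core {A B : List Ω} {x y z : Ω} {P1 Q1 R1 P2 Q2 R2 : List Ω}
    (hA : A ~r (x :: P1) ++ (y :: Q1) ++ (z :: R1))
    (hB : B ~r (p x :: P2) ++ (p y :: Q2) ++ (p z :: R2)) :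
    ∃ A' B', EMs p 0 (A, B) (A', B') ∧ A' ~r (y :: Q1) ++ (x :: P1) ++ (z :: R1) ∧
      B' ~r (p y :: Q2) ++ (p x :: P2) ++ (p z :: R2) ∧ B'.getLast? = B.getLast? := by
  -- the three linear forms
  have cXYZ : ∀ D R3 : List Ω, R2 = R3 ++ D →
      B = D ++ ((p x :: P2) ++ ((p y :: Q2) ++ (p z :: R3))) →
      ∃ A' B', EMs p 0 (A, B) (A', B') ∧ A' ~r (y :: Q1) ++ (x :: P1) ++ (z :: R1) ∧
      B' ~r (p y :: Q2) ++ (p x :: P2) ++ (p z :: R2) ∧ B'.getLast? = B.getLast? := by
    intro D R3 hR hB'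
    obtain ⟨h1, h2⟩ := cm_lin x y z P1 Q1 R1 D P2 Q2 R3 (by simpa using hA) (by simpa using hB')
    refine ⟨_, _, h1, ?_, ?_, h2⟩
    · exact rot_of_eq (u := []) (v := (y :: Q1) ++ ((x :: P1) ++ (z :: R1))) (by simp) (by simp)
    · rw [hR]
      exact rot_of_eq (u := D) (v := (p y :: Q2) ++ (p x :: P2) ++ (p z :: R3)) (by simp) (by simp)
  have cYZX : ∀ D P3 : List Ω, P2 = P3 ++ D →
      B = D ++ ((p y :: Q2) ++ ((p z :: R2) ++ (p x :: P3))) →
      ∃ A' B', EMs p 0 (A, B) (A', B') ∧ A' ~r (y :: Q1) ++ (x :: P1) ++ (z :: R1) ∧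
      B' ~r (p y :: Q2) ++ (p x :: P2) ++ (p z :: R2) ∧ B'.getLast? = B.getLast? := by
    intro D P3 hP hB'
    have hA2 : A ~r (y :: Q1) ++ ((z :: R1) ++ (x :: P1)) :=
      hA.trans (rot_of_eq (u := x :: P1) (v := (y :: Q1) ++ (z :: R1)) (by simp) (by simp))
    obtain ⟨h1, h2⟩ := cm_lin y z x Q1 R1 P1 D Q2 R2 P3 (by simpa using hA2) (by simpa using hB')
    refine ⟨_, _, h1, ?_, ?_, h2⟩
    · exact rot_of_eq (u := z :: R1) (v := (y :: Q1) ++ (x :: P1)) (by simp) (by simp)
    · rw [hP]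
      exact rot_of_eq (u := D ++ (p z :: R2)) (v := (p y :: Q2) ++ (p x :: P3)) (by simp) (by simp)
  have cZXY : ∀ D Q3 : List Ω, Q2 = Q3 ++ D →
      B = D ++ ((p z :: R2) ++ ((p x :: P2) ++ (p y :: Q3))) →
      ∃ A' B', EMs p 0 (A, B) (A', B') ∧ A' ~r (y :: Q1) ++ (x :: P1) ++ (z :: R1) ∧
      B' ~r (p y :: Q2) ++ (p x :: P2) ++ (p z :: R2) ∧ B'.getLast? = B.getLast? := by
    intro D Q3 hQ hB'
    have hA2 : A ~r (z :: R1) ++ ((x :: P1) ++ (y :: Q1)) :=
      hA.trans (rot_of_eq (u := (x :: P1) ++ (y :: Q1)) (v := z :: R1) (by simp) (by simp))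
    obtain ⟨h1, h2⟩ := cm_lin z x y R1 P1 Q1 D R2 P2 Q3 (by simpa using hA2) (by simpa using hB')
    refine ⟨_, _, h1, ?_, ?_, h2⟩
    · exact rot_of_eq (u := (x :: P1) ++ (z :: R1)) (v := y :: Q1) (by simp) (by simp)
    · rw [hQ]
      exact rot_of_eq (u := D ++ ((p x :: P2) ++ (p z :: R2))) (v := p y :: Q3) (by simp) (by simp)
  obtain ⟨u, v, hW, hBuv⟩ : ∃ u v, (p x :: P2) ++ ((p y :: Q2) ++ (p z :: R2)) = u ++ v ∧
      B = v ++ u := by
    rw [List.append_assoc] at hB
    obtain ⟨k, hk⟩ := hB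
    rcases List.eq_nil_or_concat B with hl0 | hl0
    · subst hl0
      rw [List.rotate_nil] at hk
      exact ⟨[], [], by simpa using hk.symm, rfl⟩
    have hlen : 0 < B.length := by
      obtain ⟨u, v, rfl⟩ := hl0
      simp
    refine ⟨B.drop (k % B.length), B.take (k % B.length), ?_, (List.take_append_drop _ _).symm⟩
    rw [← hk, ← List.rotate_mod, List.rotate_eq_drop_append_take (Nat.mod_lt _ hlen).le]
  rcases List.append_eq_append_iff.mp hW with ⟨a', h1, h2⟩ | ⟨c', h1, h2⟩
  · -- u = (px P2) a'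
    rcases List.append_eq_append_iff.mp h2 with ⟨a'', h3, h4⟩ | ⟨c'', h3, h4⟩
    · -- a' = (py Q2) a''
      cases a'' with
      | nil =>
          rw [List.append_nil] at h3
          rw [List.nil_append] at h4
          exact cZXY [] Q2 (by simp) (by rw [hBuv, h1, h3, ← h4]; simp)
      | cons s a'' =>
          rw [List.cons_append, List.cons.injEq] at h4
          obtain ⟨rfl, h4⟩ := h4
          exact cXYZ v a'' h4 (by rw [hBuv, h1, h3]; try simp)
    · cases a' with
      | nil =>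
          rw [List.nil_append] at h3
          rw [List.append_nil] at h1
          exact cYZX [] P2 (by simp) (by rw [hBuv, h1, h4, ← h3]; simp)
      | cons s a' =>
          rw [List.cons_append, List.cons.injEq] at h3
          obtain ⟨rfl, h3⟩ := h3
          exact cZXY c'' a' h3 (by rw [hBuv, h1, h4]; try simp)
  · cases u with
    | nil =>
        rw [List.nil_append] at h1
        exact cXYZ [] R2 (by simp) (by rw [hBuv, h2, ← h1]; try simp)
    | cons s u =>
        rw [List.cons_append, List.cons.injEq] at h1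
        obtain ⟨rfl, h1⟩ := h1
        exact cYZX c' u h1 (by rw [hBuv, h2]; try simp)

end Pool.Agent.helper32.ATT
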