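import Pool.Agent.helper32.ATT.Lift

/-! Walks of the core lift to moves of the S-states without Theta. -/

namespace Pool.Agent.helper32.ATT

set_option linter.unusedSectionVars false
set_option linter.unusedSimpArgs false
set_option linter.unusedVariables false

open Pool.Agent.helper36.WE Equiv Equiv.Perm List NTS

variable {Ω : Type} [DecidableEq Ω] {p : Ω → Ω}

/-- what does not change in a triple swap. -/
structure Inv (p : Ω → Ω) (A B A' B' : List Ω) : Prop where
  pa : A'.Perm A
  pb : B'.Perm B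
  last : B'.getLast? = B.getLast?
  sa : ∀ s ∈ A, p (formPerm A s) ∈ A → formPerm A' s = formPerm A s
  sb : ∀ s ∈ B, p (formPerm B s) ∈ B → formPerm B' s = formPerm B s

lemma Inv.refl (A B : List Ω) : Inv p A B A B :=
  ⟨.refl _, .refl _, rfl, fun _ _ _ => rfl, fun _ _ _ => rfl⟩

lemma Inv.trans {A B A' B' A'' B'' : List Ω} (h : Inv p A B A' B') (h' : Inv p A' B' A'' B'') :
    Inv p A B A'' B'' := by
  refine ⟨h'.pa.trans h.pa, h'.pb.trans h.pb, h'.last.trans h.last, ?_, ?_⟩
  · intro s hs hp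
    have h1 := h.sa s hs hp
    have h2 := h'.sa s (h.pa.mem_iff.mpr hs) (by rw [h1]; exact h.pa.mem_iff.mpr hp)
    rw [h2, h1]
  · intro s hs hp
    have h1 := h.sb s hs hp
    have h2 := h'.sb s (h.pb.mem_iff.mpr hs) (by rw [h1]; exact h.pb.mem_iff.mpr hp)
    rw [h2, h1]

lemma WF.nA {A B : List Ω} (h : NTH.WF p (A, B)) : A.Nodup := (List.nodup_append.mp h.nd).1
lemma WF.nB {A B : List Ω} (h : NTH.WF p (A, B)) : B.Nodup := (List.nodup_append.mp h.nd).2.1
lemma WF.dj {A B : List Ω} (h : NTH.WF p (A, B)) {t : Ω} (h1 : t ∈ A) (h2 : t ∈ B) : False :=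
  (List.nodup_append.mp h.nd).2.2 t h1 t h2 rfl

lemma WF.perm {A B A' B' : List Ω} (h : NTH.WF p (A, B)) (ha : A'.Perm A) (hb : B'.Perm B) :
    NTH.WF p (A', B') := by
  refine ⟨?_, ?_, h.inv, h.ne⟩
  · exact (ha.append hb).nodup_iff.mpr h.nd
  · intro t ht
    have h1 := (ha.append hb).mem_iff.mp ht
    exact (ha.append hb).mem_iff.mpr (h.cl t h1)

lemma mem_coreA {A B : List Ω} {t : Ω} : t ∈ coreA p A B ↔ t ∈ A ∧ p t ∈ B := by
  simp [coreA, List.mem_filter]

lemma mem_coreB (hinv : ∀ t, p (p t) = t) {A B : List Ω} {t : Ω} :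
    t ∈ coreB p A B ↔ t ∈ A ∧ p t ∈ B := by
  simp only [coreB, List.mem_map, List.mem_filter, decide_eq_true_eq]
  constructor
  · rintro ⟨s, ⟨h1, h2⟩, rfl⟩
    exact ⟨h2, by rw [hinv]; exact h1⟩
  · rintro ⟨h1, h2⟩
    exact ⟨p t, ⟨h2, by rw [hinv]; exact h1⟩, hinv t⟩

lemma coreA_perm {A B A' B' : List Ω} (ha : A'.Perm A) (hb : B'.Perm B) :
    (coreA p A' B').Perm (coreA p A B) := by
  unfold coreA
  have : (fun t => decide (p t ∈ B')) = (fun t => decide (p t ∈ B)) := by
    funext t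
    simp [hb.mem_iff]
  rw [this]
  exact ha.filter _

/-- the invariant of the core. -/
noncomputable def rhos (p : Ω → Ω) (A B : List Ω) : Perm Ω :=
  (formPerm (coreB p A B))⁻¹ * formPerm (coreA p A B)

lemma St_core {A B : List Ω} (h : NTH.WF p (A, B)) :
    St (coreA p A B).toFinset (rhos p A B) (coreA p A B) (coreB p A B) := by
  have hA : (coreA p A B).Nodup := (WF.nA h).filter _
  have hB : (coreB p A B).Nodup := by
    unfold coreB
    refine ((WF.nB h).filter _).map ?_
    intro s t hst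
    have := congrArg p hst
    rwa [h.inv, h.inv] at this
  refine ⟨hA, ?_, rfl, rfl⟩
  exact (List.perm_ext_iff_of_nodup hA hB).mpr fun t => by
    rw [mem_coreA, mem_coreB h.inv]

lemma map_p_p (hinv : ∀ t, p (p t) = t) (l : List Ω) : (l.map p).map p = l := by
  rw [List.map_map]
  have : p ∘ p = id := by funext t; exact hinv t
  rw [this, List.map_id]

/-- one triple swap. -/
lemma lift_CM {A B a' b' : List Ω} (h : NTH.WF p (A, B))
    (hm : CM (coreA p A B, coreB p A B) (a', b')) :
    ∃ A' B', EMs p 0 (A, B) (A', B') ∧ Inv p A B A' B' ∧ coreA p A' B' ~r a' ∧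
      coreB p A' B' ~r b' := by
  obtain ⟨x, y, z, P, Q, R, P', Q', R', e1, e2, e3, e4⟩ := hm
  simp only at e1 e2 e3 e4
  obtain ⟨P1, Q1, R1, hA, fP, fQ, fR⟩ := split3 (WF.nA h) e1
  have e2' : B.filter (fun t => decide (p t ∈ A)) ~r
      (p x :: P'.map p) ++ (p y :: Q'.map p) ++ (p z :: R'.map p) := by
    have h1 := e2.map p
    rw [coreB, map_p_p h.inv] at h1
    simpa using h1
  obtain ⟨P2, Q2, R2, hB, gP, gQ, gR⟩ := split3 (WF.nB h) e2'
  obtain ⟨A', B', hE, hA', hB', hl⟩ := lift_core hA hB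
  have hxm : x ∈ coreA p A B := e1.mem_iff.mpr (by simp)
  have hym : y ∈ coreA p A B := e1.mem_iff.mpr (by simp)
  have hzm : z ∈ coreA p A B := e1.mem_iff.mpr (by simp)
  rw [mem_coreA] at hxm hym hzm
  have pA : A'.Perm A := by
    refine hA'.perm.trans (List.Perm.trans ?_ hA.perm.symm)
    exact List.perm_append_comm.append_right _
  have pB : B'.Perm B := by
    refine hB'.perm.trans (List.Perm.trans ?_ hB.perm.symm)
    exact List.perm_append_comm.append_right _
  have h' : NTH.WF p (A', B') := WF.perm h pA pB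
  have q1 : (fun t => decide (p t ∈ B')) = (fun t => decide (p t ∈ B)) := by
    funext t
    simp [pB.mem_iff]
  have q2 : (fun t => decide (p t ∈ A')) = (fun t => decide (p t ∈ A)) := by
    funext t
    simp [pA.mem_iff]
  refine ⟨A', B', hE, ⟨pA, pB, hl, ?_, ?_⟩, ?_, ?_⟩
  · intro s hs hps
    have n1 := hA.nodup_iff.mp (WF.nA h)
    rw [formPerm_eq_of_isRotated (WF.nA h') hA', formPerm_triple x y z P1 Q1 R1 n1, Perm.mul_apply,
      ← formPerm_eq_of_isRotated (WF.nA h) hA]
    have hne : ∀ w, w ∈ A ∧ p w ∈ B → formPerm A s ≠ w := by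
      rintro w ⟨-, hw⟩ rfl
      exact WF.dj h hps hw
    have hx := hne x hxm
    have hy := hne y hym
    have hz := hne z hzm
    rw [mul_inv_rev]
    simp only [Perm.mul_apply, swap_inv]
    rw [swap_apply_of_ne_of_ne hx hy, swap_apply_of_ne_of_ne hy hz, swap_apply_of_ne_of_ne hx hz,
      swap_apply_of_ne_of_ne hy hx]
  · intro s hs hps
    have n1 := hB.nodup_iff.mp (WF.nB h)
    rw [formPerm_eq_of_isRotated (WF.nB h') hB',
      formPerm_triple (p x) (p y) (p z) P2 Q2 R2 n1, Perm.mul_apply,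
      ← formPerm_eq_of_isRotated (WF.nB h) hB]
    have hne : ∀ w, w ∈ A ∧ p w ∈ B → formPerm B s ≠ p w := by
      rintro w ⟨hw, -⟩ h1
      rw [h1, h.inv] at hps
      exact WF.dj h hw hps
    have hx := hne x hxm
    have hy := hne y hym
    have hz := hne z hzm
    rw [mul_inv_rev]
    simp only [Perm.mul_apply, swap_inv]
    rw [swap_apply_of_ne_of_ne hx hy, swap_apply_of_ne_of_ne hy hz, swap_apply_of_ne_of_ne hx hz,
      swap_apply_of_ne_of_ne hy hx]
  · have h1 := rot_filter hA' (fun t => decide (p t ∈ B))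
    rw [List.filter_append, List.filter_append, fP, fQ, fR] at h1
    have h2 : coreA p A' B' ~r (y :: Q) ++ (x :: P) ++ (z :: R) := by
      unfold coreA
      rw [q1]
      exact h1
    exact h2.trans e3.symm
  · have h1 := rot_filter hB' (fun t => decide (p t ∈ A))
    rw [List.filter_append, List.filter_append, gP, gQ, gR] at h1
    have h2 : coreB p A' B' ~r (y :: Q') ++ (x :: P') ++ (z :: R') := by
      unfold coreB
      rw [q2]
      have h3 := h1.map p
      simpa [h.inv, Function.comp_def] using h3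
    exact h2.trans e4.symm

/-- a walk of triple swaps. -/
lemma lift_walk (n : ℕ) : ∀ {A B a' b' : List Ω}, NTH.WF p (A, B) →
    Walk CM n (coreA p A B, coreB p A B) (a', b') →
    ∃ A' B', EMs p 0 (A, B) (A', B') ∧ Inv p A B A' B' ∧ coreA p A' B' ~r a' ∧
      coreB p A' B' ~r b' := by
  induction n with
  | zero =>
      intro A B a' b' h hw
      obtain ⟨f, f0, fn, -⟩ := hw
      rw [f0, Prod.mk.injEq] at fn
      refine ⟨A, B, .refl _, Inv.refl _ _, ?_, ?_⟩
      · rw [fn.1]
      · rw [fn.2]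
  | succ n ih =>
      intro A B a' b' h hw
      obtain ⟨f, f0, fn, hf⟩ := hw
      have h1 : CM (coreA p A B, coreB p A B) ((f 1).1, (f 1).2) := by
        have := hf 0 (by omega)
        rw [f0] at this
        exact this
      obtain ⟨A1, B1, hE, hI, ha, hb⟩ := lift_CM h h1
      have hw2 : Walk CM n ((f 1).1, (f 1).2) (a', b') :=
        ⟨fun i => f (i + 1), rfl, fn, fun i hi => hf (i + 1) (by omega)⟩
      obtain ⟨a2, b2, hw3, ha2, hb2⟩ := walk_rot ha.symm hb.symm hw2
      obtain ⟨A', B', hE', hI', ha', hb'⟩ := ih (WF.perm h hI.pa hI.pb) hw3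
      exact ⟨A', B', by simpa using hE.trans hE', hI.trans hI', ha'.trans ha2, hb'.trans hb2⟩

end Pool.Agent.helper32.ATT
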